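import Pool.Agent.L0h53.DN.H

/-!
# Lehmer's problem for integer matrices of bounded departure from normality

For an integer matrix `A` of size `n` let `M(A)` be the Mahler measure of `z ^ n χ_A(z + 1/z)` and let
`Δ(A)` be the square of Henrici's departure from normality: the sum of the squares of the entries of
`A` minus the sum of the squares of the absolute values of its eigenvalues (`Δ(A) ≥ 0`, with equality
exactly for normal matrices).

For every `D` there is `μ > 1` such that `M(A) = 1` or `M(A) ≥ μ` for all integer matrices `A`, of all
sizes, with `Δ(A) ≤ D`.  By the second part this contains, for every `r`, all integer matrices with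
`∑ (A_ij - A_ji) ^ 2 ≤ r`, for instance the adjacency matrices of all digraphs, of any size, with at
most `r` arcs whose reverse is missing.

Method.  If `M(A) ≤ 2` and `Δ(A) ≤ D` then `∑ (A_ij - A_ji) ^ 2 = 2 Δ(A) + 4 ∑ (Im α) ^ 2` is bounded,
so `A` differs from an integer symmetric matrix `S` in boundedly many entries, and the quotient
`q = χ_A / χ_S` is a determinant of bounded size of matrix elements of the resolvent of `S`.  The
integral of `log (1 + |q|)` is bounded on the real line (with respect to a harmonic measure of the
upper half plane) and on the segment `[-2, 2]`.  As `q` is analytic in the upper half plane and not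
small at a point high up, the integral of `log⁻ |q|` is bounded on the real line; averaging over
shifts of a segment slightly longer than `[-2, 2]` one gets a bound for the number and the size of
the eigenvalues of `S` outside of a slightly larger segment.  By a convexity argument `S` has only
boundedly many disjoint noncyclotomic principal submatrices of small size, so deletion of boundedly
many rows makes it cyclotomic.  Hence `χ_A` and the characteristic polynomial of the rest form a
pair of bounded height, and pairs of integer polynomials of bounded height satisfy Lehmer's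
inequality.
-/

set_option autoImplicit false

namespace Pool.Agent.Results.MP_7ab245_nt.DepartureFromNormality

open Polynomial

noncomputable section

/-- The polynomial `z ^ n p(z + 1/z)` for a polynomial `p` of degree `n`. -/
def reciprocalOf (p : ℂ[X]) : ℂ[X] :=
  ∑ k ∈ Finset.range (p.natDegree + 1), C (p.coeff k) * (X ^ 2 + 1) ^ k * X ^ (p.natDegree - k)

/-- The Mahler measure of `z ^ n χ_A(z + 1/z)` for an integer matrix `A` of size `n`. -/
def traceMeasure {n : ℕ} (A : Matrix (Fin n) (Fin n) ℤ) : ℝ :=
  (reciprocalOf (A.charpoly.map (Int.castRingHom ℂ))).mahlerMeasure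

/-- The square of the departure from normality: the sum of the squares of the entries minus the sum
of the squares of the absolute values of the complex eigenvalues, counted with multiplicities. -/
def departure {n : ℕ} (A : Matrix (Fin n) (Fin n) ℤ) : ℝ :=
  ∑ i, ∑ j, (A i j : ℝ) ^ 2 -
    ((A.map (Int.castRingHom ℂ)).charpoly.roots.map fun a => ‖a‖ ^ 2).sum

theorem result :
    (∀ D : ℝ, ∃ μ : ℝ, 1 < μ ∧ ∀ (n : ℕ) (A : Matrix (Fin n) (Fin n) ℤ), departure A ≤ D →
      traceMeasure A = 1 ∨ μ ≤ traceMeasure A) ∧
    ∀ (n : ℕ) (A : Matrix (Fin n) (Fin n) ℤ),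
      2 * departure A ≤ ∑ i, ∑ j, ((A i j : ℝ) - (A j i : ℝ)) ^ 2 := by
  constructor
  · intro D
    obtain ⟨δ, hδ, h⟩ := Pool.Agent.L0h53.DN.gap D
    refine ⟨Real.exp δ, Real.one_lt_exp_iff.mpr hδ, fun n A hA => ?_⟩
    have h1 : traceMeasure A =
        Real.exp (Pool.Agent.W242.IM.mp (Pool.Agent.H261R2.CM.toC A.charpoly)) :=
      Pool.Agent.W242.IM.MM_toC A.charpoly (Matrix.charpoly_monic A).ne_zero
    rw [h1]
    exact Pool.Agent.W242.IM.MM_alt (h n A hA)
  · intro n A
    obtain ⟨κ, _, α, h1, h2, h3⟩ :=
      Pool.Agent.L0h53.DN.exists_family (A.map (Int.castRingHom ℂ))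
    rw [Pool.Agent.L0h53.DN.skew_identity A α h1 h2 h3]
    have h4 : departure A = Pool.Agent.L0h53.DN.dep A := rfl
    rw [h4]
    have h5 : 0 ≤ ∑ j, (α j).im ^ 2 := Finset.sum_nonneg fun _ _ => by positivity
    linarith

end

end Pool.Agent.Results.MP_7ab245_nt.DepartureFromNormality
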