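import Pool.Agent.L0h53.SC.O

/-!
# Lehmer's problem for Seifert forms, Coxeter transformations and isometries of bounded index

For an integer matrix `V` let `f_V = det (X V + Vᵀ)`.  These are the Alexander polynomials of links
(`V` a Seifert matrix, up to the sign of the variable) and the Coxeter polynomials of bilinear forms
over the integers with determinant `± 1`, e.g. the Euler forms of finite dimensional algebras of
finite global dimension (`f_V` is the characteristic polynomial of `- V⁻¹ Vᵀ`, up to a sign).  If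
`V + Vᵀ` is positive semidefinite and `det V = ± 1`, all zeros of `f_V` are on the unit circle; here
`V + Vᵀ` can be of any signature and `n` is arbitrary.

1. For all `k`, `c` there is `μ > 1` such that `M(f_V) = 1` or `M(f_V) ≥ μ` for all integer matrices
   `V` of all sizes with `f_V ≠ 0` that have a nonsingular principal submatrix `V₀` of corank at most
   `k` with `x ⬝ V₀ x ≥ 0` and `|det V₀| ≤ c`.
2. For all `k`, `c` there is `μ > 1` with the following property.  Let `G` be an integral symmetric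
   matrix of any size with `det G ≠ 0` which is nonnegative on a subspace of codimension at most
   `k` (i.e. with at most `k` negative eigenvalues), and let `T`, `T₁` be integral isometries of `G`
   with `rank (T - T₁) ≤ k` and `M(χ_T₁) ≤ c`.  Then `M(χ_T) ≥ μ`, or every eigenvalue of `T` outside
   of the closed unit disc is an eigenvalue of `T₁` with at least the same algebraic multiplicity.
   In particular, `M(χ_T) = 1` or `M(χ_T) ≥ μ` if `T₁` is of finite order.
3., 4. The same holds for complex forms and sesquilinear forms if only the resulting polynomials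
   have integral coefficients, and the two forms may live on different spaces and only agree on a
   subspace of codimension at most `k`.

Method.  (The comparison.)  Let `V`, `V₁` be complex matrices of sizes `n`, `m` which agree on a
common subspace `U` of codimension at most `k`, and let the real part of the form `V` be nonnegative
on `U`.  It is shown that the quotient of `|det (z V + Vᴴ)| / M(V) / |1 + z| ^ n` and of
`|det (z V₁ + V₁ᴴ)| / |det V₁| / |1 + z| ^ m` on the unit circle has a bounded `∫ log (1 + ·)`, with a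
bound depending only on `k`.  After a perturbation all zeros `ζ` are simple and `V` is a direct sum
over the (at most `k`) pairs `ζ`, `1 / conj ζ` outside of the circle and an accretive form on the rest
(the eigenvectors are orthogonal for both `V` and `Vᴴ`).  For accretive forms the step from a
subspace of codimension one to the whole space multiplies `det (z V + Vᴴ) / (1 - z)` by a function
with nonnegative real part in the disc, and such functions have a bounded `∫ log (1 + |·|)` relative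
to their value at `0`.  Fatou's lemma and the upper semicontinuity of the Mahler measure remove the
perturbation.  An isometry `T` of a Hermitian form `G` is turned into the sesquilinear form
`V = G (1 - ω T)⁻¹` with `V + Vᴴ = G` (Cayley transform), and `ω → 1` in the bound.

(The gap.)  Multiplied by powers of `1 + X`, the two integral polynomials have a quotient with a
bounded `∫ log (1 + |·|)`, i.e. a bounded common height, and pairs of integer polynomials of bounded
height satisfy Lehmer's inequality unless their zeros outside of the circle agree.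
-/

set_option autoImplicit false

namespace Pool.Agent.Results.MP_7ab245_nt.IsometriesOfBoundedIndex

open Polynomial Matrix

noncomputable section

/-- The Mahler measure of an integer polynomial. -/
def mahler (P : ℤ[X]) : ℝ := (P.map (Int.castRingHom ℂ)).mahlerMeasure

/-- The polynomial `det (X V + Vᵀ)`. -/
def seifert {ι : Type*} [Fintype ι] [DecidableEq ι] (V : Matrix ι ι ℤ) : ℤ[X] :=
  (Matrix.of fun i j => X * C (V i j) + C (V j i)).det

/-- The principal submatrix of the rows and columns not in `S`. -/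
def off {n : ℕ} (V : Matrix (Fin n) (Fin n) ℤ) (S : Finset (Fin n)) :
    Matrix {i // i ∉ S} {i // i ∉ S} ℤ := V.submatrix Subtype.val Subtype.val

/-- Every zero of `P` outside of the closed unit disc is a zero of `P₁` of at least the same
multiplicity. -/
def OutsideZerosIn (P P₁ : ℤ[X]) : Prop :=
  ∀ z : ℂ, 1 < ‖z‖ → (P.map (Int.castRingHom ℂ)).rootMultiplicity z ≤
    (P₁.map (Int.castRingHom ℂ)).rootMultiplicity z

theorem outside_of {P P₁ : ℤ[X]} (hP : P ≠ 0) (hP₁ : P₁ ≠ 0)
    (h : ∀ (z : ℂ) (r : ℕ), 1 < ‖z‖ → (X - C z) ^ r ∣ Pool.Agent.H261R2.CM.toC P →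
      (X - C z) ^ r ∣ Pool.Agent.H261R2.CM.toC P₁) : OutsideZerosIn P P₁ := by
  intro z hz
  have h0 : P.map (Int.castRingHom ℂ) ≠ 0 :=
    (Polynomial.map_ne_zero_iff (RingHom.injective_int _)).mpr hP
  have h1 : P₁.map (Int.castRingHom ℂ) ≠ 0 :=
    (Polynomial.map_ne_zero_iff (RingHom.injective_int _)).mpr hP₁
  rw [le_rootMultiplicity_iff h1]
  exact h z _ hz ((le_rootMultiplicity_iff h0).mp le_rfl)

theorem result :
    -- 1. Seifert forms and Coxeter transformations
    (∀ (k : ℕ) (c : ℝ), ∃ μ : ℝ, 1 < μ ∧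
      ∀ (n : ℕ) (V : Matrix (Fin n) (Fin n) ℤ) (S : Finset (Fin n)), S.card ≤ k →
      (∀ x : {i // i ∉ S} → ℝ, 0 ≤ x ⬝ᵥ (((off V S).map (Int.cast : ℤ → ℝ)) *ᵥ x)) →
      (off V S).det ≠ 0 → |((off V S).det : ℝ)| ≤ c → seifert V ≠ 0 →
      mahler (seifert V) = 1 ∨ μ ≤ mahler (seifert V)) ∧
    -- 2. isometries of integral lattices
    (∀ (k : ℕ) (c : ℝ), ∃ μ : ℝ, 1 < μ ∧
      ∀ (n : ℕ) (G T T₁ : Matrix (Fin n) (Fin n) ℤ) (C₀ : Matrix (Fin k) (Fin n) ℝ),
      Gᵀ = G → G.det ≠ 0 → Tᵀ * G * T = G → T₁ᵀ * G * T₁ = G →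
      ((T - T₁).map (Int.castRingHom ℂ)).rank ≤ k →
      (∀ x : Fin n → ℝ, C₀ *ᵥ x = 0 → 0 ≤ x ⬝ᵥ ((G.map (Int.cast : ℤ → ℝ)) *ᵥ x)) →
      (mahler T₁.charpoly ≤ c →
        μ ≤ mahler T.charpoly ∨ OutsideZerosIn T.charpoly T₁.charpoly) ∧
      ((∃ N : ℕ, 0 < N ∧ T₁ ^ N = 1) → mahler T.charpoly = 1 ∨ μ ≤ mahler T.charpoly)) ∧
    -- 3. complex sesquilinear forms which agree on a subspace of codimension at most `k`
    (∀ (k : ℕ) (c : ℝ), ∃ μ : ℝ, 1 < μ ∧
      ∀ (n m d : ℕ) (V : Matrix (Fin n) (Fin n) ℂ) (V₁ : Matrix (Fin m) (Fin m) ℂ)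
      (A : Matrix (Fin n) (Fin d) ℂ) (B : Matrix (Fin m) (Fin d) ℂ) (P P₁ : ℤ[X]) (κ κ₁ : ℂ),
      Function.Injective A.mulVec → Function.Injective B.mulVec → Aᴴ * V * A = Bᴴ * V₁ * B →
      n ≤ d + k → m ≤ d + k → (∀ x, 0 ≤ (star x ⬝ᵥ ((Aᴴ * V * A) *ᵥ x)).re) → V₁.det ≠ 0 →
      (∀ z, (P.map (Int.castRingHom ℂ)).eval z = κ * (z • V + Vᴴ).det) →
      (∀ z, (P₁.map (Int.castRingHom ℂ)).eval z = κ₁ * (z • V₁ + V₁ᴴ).det) →
      P ≠ 0 → P₁ ≠ 0 → mahler P₁ ≤ c → μ ≤ mahler P ∨ OutsideZerosIn P P₁) ∧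
    -- 4. complex Hermitian forms whose isometries agree on a subspace of codimension at most `k`
    (∀ (k : ℕ) (c : ℝ), ∃ μ : ℝ, 1 < μ ∧
      ∀ (n m d : ℕ) (G T : Matrix (Fin n) (Fin n) ℂ) (G₁ T₁ : Matrix (Fin m) (Fin m) ℂ)
      (A : Matrix (Fin n) (Fin d) ℂ) (B : Matrix (Fin m) (Fin d) ℂ)
      (C₀ : Matrix (Fin k) (Fin n) ℂ) (P P₁ : ℤ[X]) (κ κ₁ : ℂ),
      Gᴴ = G → G₁ᴴ = G₁ → G.det ≠ 0 → G₁.det ≠ 0 → Tᴴ * G * T = G → T₁ᴴ * G₁ * T₁ = G₁ →
      Function.Injective A.mulVec → Function.Injective B.mulVec →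
      Aᴴ * G * A = Bᴴ * G₁ * B → (T * A)ᴴ * G * A = (T₁ * B)ᴴ * G₁ * B →
      n ≤ d + k → m ≤ d + k → (∀ x, C₀ *ᵥ x = 0 → 0 ≤ (star x ⬝ᵥ (G *ᵥ x)).re) →
      P.map (Int.castRingHom ℂ) = C κ * T.charpoly →
      P₁.map (Int.castRingHom ℂ) = C κ₁ * T₁.charpoly →
      P ≠ 0 → P₁ ≠ 0 → mahler P₁ ≤ c → μ ≤ mahler P ∨ OutsideZerosIn P P₁) := by
  refine ⟨?_, ?_, ?_, ?_⟩
  · intro k c
    obtain ⟨μ, h1, _, h⟩ := Pool.Agent.L0h53.SC.gap_seifert k c
    exact ⟨μ, h1, h⟩
  · intro k c
    obtain ⟨μ, h1, h2, h⟩ := Pool.Agent.L0h53.SC.gap_lattice k (max c 1)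
    refine ⟨μ, h1, ?_⟩
    intro n G T T₁ C₀ hG hdG hT hT₁ hr hC
    refine ⟨fun hc => ?_, fun hN => ?_⟩
    · rcases h n G T T₁ C₀ hG hdG hT hT₁ hr hC (hc.trans (le_max_left _ _)) with h3 | h3
      · exact Or.inl h3
      · exact Or.inr (outside_of (Matrix.charpoly_monic _).ne_zero
          (Matrix.charpoly_monic _).ne_zero h3)
    · obtain ⟨N, hN0, hN1⟩ := hN
      have h3 : Pool.Agent.H261R2.CM.m1 T₁.charpoly = 1 :=
        Pool.Agent.L0h53.SC.finite_order T₁ hN0 hN1
      have h4 := h n G T T₁ C₀ hG hdG hT hT₁ hr hC (by rw [h3]; exact le_max_right _ _)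
      refine Pool.Agent.L0h53.SC.gap_of_outside (Matrix.charpoly_monic _).ne_zero h2 h4 ?_
      refine Pool.Agent.L0h53.SC.in_of_mahler_one _ ?_ h3
      exact (Matrix.charpoly_monic _).map _
  · intro k c
    obtain ⟨μ, h1, _, h⟩ := Pool.Agent.L0h53.SC.gap_pencil2 k c
    refine ⟨μ, h1, ?_⟩
    intro n m d V V₁ A B P P₁ κ κ₁ hA hB hAB hn hm hacc hdet hP hP₁ hP0 hP10 hc
    rcases h n m d V V₁ A B P P₁ κ κ₁ hA hB hAB hn hm hacc hdet hP hP₁ hP0 hP10 hc with h3 | h3
    · exact Or.inl h3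
    · exact Or.inr (outside_of hP0 hP10 h3)
  · intro k c
    obtain ⟨μ, h1, _, h⟩ := Pool.Agent.L0h53.SC.gap_isometry k c
    refine ⟨μ, h1, ?_⟩
    intro n m d G T G₁ T₁ A B C₀ P P₁ κ κ₁ hG hG₁ hdG hdG₁ hT hT₁ hA hB hAB hAB' hn hm hC hP hP₁
      hP0 hP10 hc
    rcases h n m d G T G₁ T₁ A B C₀ P P₁ κ κ₁ hG hG₁ hdG hdG₁ hT hT₁ hA hB hAB hAB' hn hm hC hP hP₁
      hP0 hP10 hc with h3 | h3
    · exact Or.inl h3
    · exact Or.inr (outside_of hP0 hP10 h3)

end

end Pool.Agent.Results.MP_7ab245_nt.IsometriesOfBoundedIndex
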