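import Mathlib
import Pool.Agent.L0h53.DB.B

/-!
# Repelling zeros: the bound with the gain of Dobrowolski's theorem

There is an absolute constant `c > 0` such that for every irreducible integer polynomial `f` of
degree `n` with `M(f) > 1` and every `R ≥ 2`: if

* `∑ -log max (|z - w|, 1 / (n R ^ 5)) ≤ R n`, the sum being over all ordered pairs `(z, w)` of
  complex zeros of `f` (the `n` pairs with `z = w` contribute `log n + 5 log R` each), or
* `|disc f| ≥ (n / e ^ R) ^ n`,

then `M(f) ≥ exp (c (log R / R) ^ 3)`.

For every irreducible `f` of degree `n ≥ 8` the second condition holds with `R = log n`, since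
`|disc f| ≥ 1`; this is Dobrowolski's theorem `log M(f) ≥ c (log log n / log n) ^ 3`. For bounded
`R` it is Lehmer's inequality. So the theorem interpolates between the two: `log n` is replaced by
the energy per zero. The starting file `RepellingZeros` has `(1 / R) ^ 3` in place of
`(log R / R) ^ 3` (with the coarser truncation `1 / n`), which does not contain Dobrowolski's
theorem.

In the first condition pairs of zeros at distance less than `1 / (n R ^ 5)` are counted as if they
had this distance: any number of very close pairs (which may make the discriminant small) is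
harmless as long as there are `O (R n / log n)` of them.

Method: the energy inequality for `α` and its prime powers, with one contraction of all conjugates
by the factor `1 - O (1 / (n R ^ 5))`. The total displacement is smaller than the bound to be proved,
and the energy per conjugate is `O (R)`: the change of scale (`scale`) costs only a constant factor
because the truncation is already a power of `R`. So the primes up to `R ^ 2 / log R` can be used,
instead of those up to `R ^ 2 log R`.
-/

set_option autoImplicit false

open Polynomial

namespace Pool.Agent.Results.MP_7ab245_nt.RepellingZerosDobrowolski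

/-- The truncated energy of the zeros of `f`: the sum of `-log max (|z - w|, κ / n)` over all
ordered pairs `(z, w)` of complex zeros of `f`, where `n` is the degree of `f`. -/
noncomputable def truncatedEnergy (f : ℤ[X]) (κ : ℝ) : ℝ :=
  ((f.map (Int.castRingHom ℂ)).roots.map fun z =>
    ((f.map (Int.castRingHom ℂ)).roots.map fun w =>
      -Real.log (max ‖z - w‖ (κ / f.natDegree))).sum).sum

theorem result : ∃ c : ℝ, 0 < c ∧ ∀ f : ℤ[X], Irreducible f →
    1 < (f.map (Int.castRingHom ℂ)).mahlerMeasure → ∀ R : ℝ, 2 ≤ R →
    (truncatedEnergy f (1 / R ^ 5) ≤ R * f.natDegree ∨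
      f.natDegree * (Real.log f.natDegree - R) ≤ Real.log |(f.discr : ℝ)|) →
    Real.exp (c * (Real.log R / R) ^ 3) ≤ (f.map (Int.castRingHom ℂ)).mahlerMeasure := by
  obtain ⟨c1, hc1, h1⟩ := Pool.Agent.L0h53.DB.irr_case
  obtain ⟨c2, hc2, h2⟩ := Pool.Agent.L0h53.DB.irr_disc
  refine ⟨min c1 c2, lt_min hc1 hc2, ?_⟩
  intro f hf hM R hR h
  have hpos : 0 < (f.map (Int.castRingHom ℂ)).mahlerMeasure := by linarith
  rw [← Real.exp_log hpos]
  apply Real.exp_le_exp.mpr
  have h0 : 0 ≤ Real.log R := Real.log_nonneg (by linarith)
  have hRp : 0 < R := by linarith
  have hr : 0 ≤ (Real.log R / R) ^ 3 := by positivity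
  rcases h with h | h
  · refine le_trans ?_ (h1 f hf hM R hR h)
    exact mul_le_mul_of_nonneg_right (min_le_left _ _) hr
  · refine le_trans ?_ (h2 f hf hM R hR h)
    exact mul_le_mul_of_nonneg_right (min_le_right _ _) hr

end Pool.Agent.Results.MP_7ab245_nt.RepellingZerosDobrowolski
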