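import Pool.Agent.L0h53.DZ.F

/-!
# Lehmer's problem and the discrepancy between the zeros and roots of unity

For an integer polynomial `P` let `N_P(s)` be the number of its complex zeros whose argument is less
than `2 π s`, `-1/2 ≤ s ≤ 1/2`; the absolute values of the zeros do not matter.  For a second
polynomial `Q` consider the discrepancy `N_P(s) - N_Q(s) - (deg P - deg Q) s - b` with any constant
`b`, and let `K` be an upper bound for its `L ^ 2` norm.

1. There is an absolute constant `c > 0` such that
   `log M(f) ≥ c / ((1 + deg Q / deg f) (1 + K + log M(Q))) ^ 3` for every irreducible `f` with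
   `M(f) > 1` and every `Q` with `Q(0) ≠ 0` not divisible by `f`.  For `Q = 1` this is
   `log M(f) ≥ c / (1 + K) ^ 3`, where `K` is the `L ^ 2` discrepancy of the arguments of the zeros of
   `f` (not divided by the degree).
2. For all `K`, `c` there is `μ > 1` such that for all `P`, `Q`, of any degrees and possibly
   reducible, with `P(0) Q(0) ≠ 0`, `L ^ 2` discrepancy at most `K` and `M(Q) ≤ c`: `M(P) ≥ μ`, or every
   zero of `P` outside of the closed unit disc is a zero of `Q` of at least the same multiplicity.
   If `Q` has no zeros outside of the closed unit disc, then `M(P) = 1` or `M(P) ≥ μ`.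

Let `Q` be a product of cyclotomic polynomials, with arbitrarily many factors, with repetitions. By
the second part Lehmer's inequality holds, with a constant depending only on `K`, for all integer
polynomials `P` the arguments of whose zeros are distributed like those of the zeros of such a `Q`
up to `K`, for instance if each sector contains as many zeros of `P` as of `Q` up to an error of at
most `K / 2`.

Method.  Let `P₁`, `Q₁` be the polynomials with the zeros `z / |z|`.  In the disc, `log (Q₁ / P₁)` has
as its imaginary part a convolution of the discrepancy with a kernel with bounded mean absolute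
value (`1 -` Poisson kernel), and the real part has the same mean square; so the mean of
`|log |Q₁ / P₁||` over the circle is `O(1 + K)`.  By `|e(t) - z| ≥ |z| ^ (1/2) |e(t) - z / |z||` the
function `log |P / P₁|` is at least half of `log |a P(0)| ≥ 0`, `a` the leading coefficient, and its
mean is `log M(P)`; the same holds for `Q`.  Hence `∫ log (1 + |Q / P|) ≤ O(1 + K) + log M(Q)` whatever
the absolute values of the zeros are, and one can apply the bounds for pairs of integer polynomials
of bounded height.
-/

set_option autoImplicit false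

namespace Pool.Agent.Results.MP_7ab245_nt.ZeroDiscrepancy

open Polynomial

noncomputable section

/-- The Mahler measure of an integer polynomial. -/
def mahler (P : ℤ[X]) : ℝ := (P.map (Int.castRingHom ℂ)).mahlerMeasure

/-- The number of complex zeros of `P`, with multiplicities, with an argument (in `(-π, π]`) less
than `2 π s`. -/
def zerosBelow (P : ℤ[X]) (s : ℝ) : ℝ :=
  ((P.map (Int.castRingHom ℂ)).roots.filter fun z => Complex.arg z < 2 * Real.pi * s).card

/-- The mean square of the discrepancy of the arguments of the zeros of `P` and of `Q`, shifted by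
the constant `b`. -/
def discrepancySq (P Q : ℤ[X]) (b : ℝ) : ℝ :=
  ∫ s in (-(1/2) : ℝ)..(1/2),
    (zerosBelow P s - zerosBelow Q s - ((P.natDegree : ℝ) - Q.natDegree) * s - b) ^ 2

/-- Every zero of `P` outside of the closed unit disc is a zero of `Q` of at least the same
multiplicity. -/
def OutsideZerosIn (P Q : ℤ[X]) : Prop :=
  ∀ z : ℂ, 1 < ‖z‖ → (P.map (Int.castRingHom ℂ)).rootMultiplicity z ≤
    (Q.map (Int.castRingHom ℂ)).rootMultiplicity z

theorem result :
    (∃ c : ℝ, 0 < c ∧ ∀ (f Q : ℤ[X]) (b K : ℝ), Irreducible f → 1 < mahler f → Q.coeff 0 ≠ 0 →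
      ¬ f ∣ Q → 0 ≤ K → discrepancySq f Q b ≤ K ^ 2 →
      c / ((1 + (Q.natDegree : ℝ) / f.natDegree) * (1 + K + Real.log (mahler Q))) ^ 3 ≤
        Real.log (mahler f)) ∧
    (∀ K c : ℝ, ∃ μ : ℝ, 1 < μ ∧ ∀ (P Q : ℤ[X]) (b : ℝ), P.coeff 0 ≠ 0 → Q.coeff 0 ≠ 0 →
      discrepancySq P Q b ≤ K ^ 2 → mahler Q ≤ c →
      (μ ≤ mahler P ∨ OutsideZerosIn P Q) ∧
      ((∀ z : ℂ, 1 < ‖z‖ → (Q.map (Int.castRingHom ℂ)).eval z ≠ 0) →
        mahler P = 1 ∨ μ ≤ mahler P)) := by
  constructor
  · obtain ⟨c, hc, h⟩ := Pool.Agent.L0h53.DZ.explicit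
    exact ⟨c, hc, fun f Q b K hf hM hQ hdvd hK0 hK => h f Q b K hK0 hf hM hQ hdvd hK⟩
  · intro K c
    obtain ⟨μ, h1, h2, h⟩ := Pool.Agent.L0h53.DZ.gap_disc K c
    refine ⟨μ, h1, ?_⟩
    intro P Q b hP hQ hK hc
    have hP0 : P ≠ 0 := by
      rintro rfl
      simp at hP
    have hQ0 : Q ≠ 0 := by
      rintro rfl
      simp at hQ
    have h3 := h P Q b hP hQ hK hc
    refine ⟨?_, fun hout => Pool.Agent.L0h53.SC.gap_of_outside hP0 h2 h3 hout⟩
    rcases h3 with h4 | h4
    · exact Or.inl h4
    · right
      intro z hz
      have e0 : P.map (Int.castRingHom ℂ) ≠ 0 :=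
        (Polynomial.map_ne_zero_iff (RingHom.injective_int _)).mpr hP0
      have e1 : Q.map (Int.castRingHom ℂ) ≠ 0 :=
        (Polynomial.map_ne_zero_iff (RingHom.injective_int _)).mpr hQ0
      rw [le_rootMultiplicity_iff e1]
      exact h4 z _ hz ((le_rootMultiplicity_iff e0).mp le_rfl)

end

end Pool.Agent.Results.MP_7ab245_nt.ZeroDiscrepancy
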